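import Pool.Agent.Helper41.LD7.Defs
import Pool.Agent.Helper17.LD6.GM

/-!
# Project LD7: the functionals of a stage: measurable, bounded, constant on the cells of the grid
-/

set_option autoImplicit false

namespace Pool.Agent.Helper17.LD7

open Set MeasureTheory Filter Topology
open Pool.Agent.Helper41.LD4 (NB NBg)
open Pool.Agent.Helper41.LD5 (fp pwf)
open Pool.Agent.Helper41.LD6 (hr vr lv Qs vq lev Lv NR6)
open Pool.Agent.Helper41.LD7

theorem pwf_meas17 (A₀ : ℝ) (c : ℝ → ℝ) (P n : ℕ) : Measurable (pwf A₀ c P n) := by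
  unfold pwf
  exact ((measurable_id.pow_const ((n : ℝ) / P)).const_mul A₀).add_const (c ((n : ℝ) / P))

section

variable {F : Pm} {K : ℕ} {a₀ ℓst a ℓ x : ℝ} {u : ℕ × (Fin (F.d + 1) → ℕ)} {j : ℕ}

theorem G_meas (K : ℕ) (a₀ ℓst : ℝ) (_hu : u ∈ F.Is K) (j : ℕ) : Measurable (F.G K a₀ ℓst u j) := by
  unfold Pm.G GQ
  by_cases hj : j < 2 ^ (2 * K) ∧ (F.n₀ K a₀ ℓst + j) % F.Q = u.1
  · simp only [hj, and_self, if_true]
    exact Finset.measurable_prod _ fun i _ => (Pool.Agent.Helper17.LD6.hr_meas17 (u.2 i)).comp (pwf_meas17 _ _ _ _)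
  · simp only [hj, if_false]
    exact measurable_const

theorem G_bdd (K : ℕ) (a₀ ℓst : ℝ) (_hu : u ∈ F.Is K) (j : ℕ) (x : ℝ) : |F.G K a₀ ℓst u j x| ≤ 1 := by
  unfold Pm.G GQ
  by_cases hj : j < 2 ^ (2 * K) ∧ (F.n₀ K a₀ ℓst + j) % F.Q = u.1
  · rw [if_pos hj, Finset.abs_prod]
    exact Finset.prod_le_one (fun _ _ => abs_nonneg _) fun i _ => Pool.Agent.Helper17.LD6.hr_abs17 _ _
  · rw [if_neg hj, abs_zero]
    exact zero_le_one

/-- constant integer parts give constant functionals -/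
theorem G_NB (hu : u ∈ F.Is K) {n r : ℕ} (h : NBg (F.U K a₀ ℓst) (n + F.d) r (2 ^ K) a ℓ) : NB (F.G K a₀ ℓst u) n r a ℓ := by
  have hqs : u.2 ∈ Qs F.d K := (Finset.mem_product.1 hu).2
  intro j hj x hx
  unfold Pm.G GQ
  by_cases hj' : j < 2 ^ (2 * K) ∧ (F.n₀ K a₀ ℓst + j) % F.Q = u.1
  · rw [if_pos hj', if_pos hj']
    refine Finset.prod_congr rfl fun i _ => ?_
    have hq : u.2 i < 2 ^ K := Finset.mem_range.1 (Fintype.mem_piFinset.1 (Finset.mem_filter.1 hqs).1 i)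
    have hi := i.2
    exact (Pool.Agent.Helper17.LD6.hr_gr hq).grid _ _ (h (j + i) (by omega) x hx)
  · rw [if_neg hj', if_neg hj']

end

end Pool.Agent.Helper17.LD7
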