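import Pool.Agent.Helper41.LD7.Defs
import Pool.Agent.Helper4.LD6.H5
import Pool.Agent.Helper17.LD6.H1

/-!
# Project LD7: the weights of the levels
-/

set_option autoImplicit false

namespace Pool.Agent.Helper17.LD7

open Set MeasureTheory Filter Topology
open Pool.Agent.Helper41.LD6 (hr vr lv Qs vq lev Lv)
open Pool.Agent.Helper41.LD7

section

variable {d K : ℕ}

theorem sp_lev (q : Fin (d + 1) → ℕ) : sp (lev q) = sp q := by
  unfold sp lev
  congr 1
  ext i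
  simp [Pool.Agent.Helper17.LD6.lv_zero]

theorem sp_le (q : Fin (d + 1) → ℕ) : sp q ≤ d + 1 := by
  unfold sp
  exact (Finset.card_filter_le _ _).trans (by simp)

theorem pow_sp17 (c : ℝ) (l : Fin (d + 1) → ℕ) : c ^ sp l = ∏ i, if l i ≠ 0 then c else 1 := by
  unfold sp
  rw [Finset.prod_ite, Finset.prod_const, Finset.prod_const_one, mul_one]

/-- the sum of `c ^ sp` over the levels -/
theorem sp_sum17 (d K : ℕ) {c : ℝ} (hc : c = 1 / (2 * ((d : ℝ) + 1) * ((K : ℝ) + 1))) : ∑ l ∈ Lv d K, c ^ sp l ≤ 1 := by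
  have hd : (0 : ℝ) < (d : ℝ) + 1 := by positivity
  have hK : (0 : ℝ) < (K : ℝ) + 1 := by positivity
  have hc0 : 0 < c := by rw [hc]; positivity
  have hKc : (K : ℝ) * c ≤ 1 / (2 * ((d : ℝ) + 1)) := by
    rw [hc, mul_one_div, div_le_div_iff₀ (by positivity) (by positivity)]
    nlinarith
  -- the levels as a product
  have h1 : ∑ l ∈ Lv d K, c ^ sp l ≤
      ∑ l ∈ Fintype.piFinset fun i : Fin (d + 1) => (Finset.range (K + 1)).filter fun n => i = 0 → n ≠ 0,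
        ∏ i, if l i ≠ 0 then c else 1 := by
    rw [Finset.sum_congr rfl fun l _ => pow_sp17 c l]
    refine Finset.sum_le_sum_of_subset_of_nonneg ?_ fun l _ _ => Finset.prod_nonneg fun i _ => by split_ifs <;> positivity
    intro l hl
    simp only [Lv, Finset.mem_filter, Fintype.mem_piFinset, Finset.mem_range] at hl
    simp only [Fintype.mem_piFinset, Finset.mem_filter, Finset.mem_range]
    exact fun i => ⟨hl.1 i, fun h => by rw [h]; exact hl.2⟩
  have h2 : ∑ l ∈ Fintype.piFinset fun i : Fin (d + 1) => (Finset.range (K + 1)).filter fun n => i = 0 → n ≠ 0,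
        ∏ i, (if l i ≠ 0 then c else 1 : ℝ) =
      ∏ i : Fin (d + 1), ∑ n ∈ (Finset.range (K + 1)).filter fun n => i = 0 → n ≠ 0, if n ≠ 0 then c else 1 := by
    rw [Finset.prod_univ_sum]
  have h3 : ∀ i : Fin (d + 1), i ≠ 0 → ∑ n ∈ (Finset.range (K + 1)).filter (fun n => i = 0 → n ≠ 0), (if n ≠ 0 then c else 1 : ℝ) =
      1 + K * c := by
    intro i hi
    have e1 : (Finset.range (K + 1)).filter (fun n => i = 0 → n ≠ 0) = Finset.range (K + 1) := by
      rw [Finset.filter_true_of_mem]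
      intro n _ h
      exact absurd h hi
    rw [e1, Finset.sum_range_succ']
    simp
    ring
  have h4 : ∑ n ∈ (Finset.range (K + 1)).filter (fun n => (0 : Fin (d + 1)) = 0 → n ≠ 0), (if n ≠ 0 then c else 1 : ℝ) = K * c := by
    have e1 : (Finset.range (K + 1)).filter (fun n => (0 : Fin (d + 1)) = 0 → n ≠ 0) = (Finset.range (K + 1)).filter fun n => n ≠ 0 := by
      refine Finset.filter_congr fun n _ => ?_
      simp
    rw [e1, Finset.sum_filter, Finset.sum_range_succ']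
    simp
  have h5 : ∏ i : Fin (d + 1), ∑ n ∈ (Finset.range (K + 1)).filter (fun n => i = 0 → n ≠ 0), (if n ≠ 0 then c else 1 : ℝ) =
      K * c * (1 + K * c) ^ d := by
    rw [Fin.prod_univ_succ, h4, Finset.prod_congr rfl fun i _ => h3 (Fin.succ i) (Fin.succ_ne_zero i)]
    simp
  rw [h2, h5] at h1
  refine h1.trans ?_
  have hk0 : 0 ≤ (K : ℝ) * c := by positivity
  have h6 : (1 + (K : ℝ) * c) ^ d ≤ 2 := by
    have e1 : 1 + (K : ℝ) * c ≤ Real.exp (1 / (2 * ((d : ℝ) + 1))) := by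
      have := Real.add_one_le_exp (1 / (2 * ((d : ℝ) + 1)))
      linarith
    calc (1 + (K : ℝ) * c) ^ d ≤ (Real.exp (1 / (2 * ((d : ℝ) + 1)))) ^ d := by gcongr
      _ = Real.exp (d * (1 / (2 * ((d : ℝ) + 1)))) := (Real.exp_nat_mul _ _).symm
      _ ≤ Real.exp (1 / 2) := by
          apply Real.exp_le_exp.2
          rw [mul_one_div, div_le_div_iff₀ (by positivity) (by norm_num)]
          linarith
      _ ≤ 2 := by
          have e2 : Real.exp (1 / 2) * Real.exp (1 / 2) = Real.exp 1 := by rw [← Real.exp_add]; norm_num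
          have e3 := Real.exp_one_lt_d9
          have e4 : 0 < Real.exp (1 / 2) := Real.exp_pos _
          nlinarith
  have h7 : (K : ℝ) * c ≤ 1 / 2 := by
    refine hKc.trans ?_
    rw [div_le_div_iff₀ (by positivity) (by norm_num)]
    have : (0 : ℝ) ≤ d := Nat.cast_nonneg d
    linarith
  calc (K : ℝ) * c * (1 + K * c) ^ d ≤ 1 / 2 * 2 := by gcongr
    _ = 1 := by norm_num

theorem om_pos {Q : ℕ} (hQ : 1 ≤ Q) (K : ℕ) (l : Fin (d + 1) → ℕ) : 0 < om Q K l ∧ om Q K l ≤ 1 := by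
  have hQ' : (1 : ℝ) ≤ Q := by exact_mod_cast hQ
  have hQ0 : (0 : ℝ) < Q := by linarith
  unfold om
  refine ⟨by positivity, ?_⟩
  have hd : (0 : ℝ) ≤ d := Nat.cast_nonneg d
  have hK : (0 : ℝ) ≤ K := Nat.cast_nonneg K
  refine mul_le_one₀ ((div_le_one hQ0).2 hQ') (by positivity) (pow_le_one₀ (by positivity) ?_)
  rw [div_le_one (by positivity)]
  nlinarith [mul_nonneg hd hK]

theorem om_lo {Q : ℕ} (hQ : 1 ≤ Q) (K : ℕ) (l : Fin (d + 1) → ℕ) : 1 / ((Q : ℝ) * (2 * ((d : ℝ) + 1) * ((K : ℝ) + 1)) ^ (d + 1)) ≤ om Q K l := by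
  have hQ' : (1 : ℝ) ≤ Q := by exact_mod_cast hQ
  have hQ0 : (0 : ℝ) < Q := by linarith
  have hd : (0 : ℝ) ≤ d := Nat.cast_nonneg d
  have hK : (0 : ℝ) ≤ K := Nat.cast_nonneg K
  unfold om
  have e1 : 1 / ((Q : ℝ) * (2 * ((d : ℝ) + 1) * ((K : ℝ) + 1)) ^ (d + 1)) = 1 / (Q : ℝ) * (1 / (2 * ((d : ℝ) + 1) * ((K : ℝ) + 1))) ^ (d + 1) := by
    rw [one_div_pow, one_div_mul_one_div]
  rw [e1]
  refine mul_le_mul_of_nonneg_left (pow_le_pow_of_le_one (by positivity) ?_ (sp_le l)) (by positivity)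
  rw [div_le_one (by positivity)]
  nlinarith [mul_nonneg hd hK]

theorem om_sum {Q : ℕ} (hQ : 1 ≤ Q) (d K : ℕ) : ∑ l ∈ Finset.range Q ×ˢ Lv d K, om Q K l.2 ≤ 1 := by
  have hQ0 : (0 : ℝ) < Q := by exact_mod_cast hQ
  have h1 : ∑ l ∈ Finset.range Q ×ˢ Lv d K, om Q K l.2 = ∑ l ∈ Lv d K, (1 / (2 * ((d : ℝ) + 1) * ((K : ℝ) + 1))) ^ sp l := by
    rw [Finset.sum_product]
    simp only [om, ← Finset.mul_sum, Finset.sum_const, Finset.card_range, nsmul_eq_mul]
    field_simp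
  rw [h1]
  exact sp_sum17 d K rfl

theorem mu_sum {Q : ℕ} (hQ : 1 ≤ Q) (d K : ℕ) : ∑ u ∈ Finset.range Q ×ˢ Qs d K, om Q K (lev u.2) ^ 2 * vq u.2 ≤ 1 := by
  have h1 : ∑ u ∈ Finset.range Q ×ˢ Qs d K, om Q K (lev u.2) ^ 2 * vq u.2 ≤ ∑ l ∈ Finset.range Q ×ˢ Lv d K, om Q K l.2 := by
    rw [Finset.sum_product, Finset.sum_product]
    refine Finset.sum_le_sum fun i _ => ?_
    have h1 : ∑ q ∈ Qs d K, om Q K (lev q) ^ 2 * vq q = ∑ l ∈ Lv d K, ∑ q ∈ Qs d K with lev q = l, om Q K (lev q) ^ 2 * vq q :=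
      (Finset.sum_fiberwise_of_maps_to (fun q hq => Pool.Agent.Helper4.LD6.lev_mem hq) _).symm
    simp only
    rw [h1]
    refine Finset.sum_le_sum fun l _ => ?_
    have h2 : ∑ q ∈ Qs d K with lev q = l, om Q K (lev q) ^ 2 * vq q = om Q K l ^ 2 * ∑ q ∈ Qs d K with lev q = l, vq q := by
      rw [Finset.mul_sum]
      refine Finset.sum_congr rfl fun q hq => ?_
      simp only [Finset.mem_filter] at hq
      rw [hq.2]
    rw [h2]
    have h3 : ∑ q ∈ Qs d K with lev q = l, vq q ≤ 1 :=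
      Pool.Agent.Helper4.LD6.lev_gen (K := K) l (fun _ n => vr n) (fun _ n => Pool.Agent.Helper4.LD6.vr_pos n)
        (fun i => Pool.Agent.Helper17.LD6.vr_sum K (l i))
    obtain ⟨h4, h5⟩ := om_pos (d := d) hQ K l
    nlinarith [mul_nonneg h4.le (sub_nonneg.2 h5), mul_nonneg (sq_nonneg (om Q K l)) (sub_nonneg.2 h3)]
  exact h1.trans (om_sum hQ d K)

end

end Pool.Agent.Helper17.LD7
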